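import Pool.Agent.H885.EndR
import Pool.Agent.H885.SymW
import Pool.Agent.H885.BaseN
import Pool.Agent.H885.AbsN
import Pool.Agent.H885.Cnt
import Pool.Agent.H885.FewR

/-!
# Endomorphism rings of the fibres near degenerate fibres of all families of abelian varieties

The question (Coleman) is whether only finitely many rings occur as `End(A)` for the abelian varieties `A` of dimension `g` over a
number field. We treat the abelian varieties over `ℚ` which are members of **arbitrary** families of bounded degree and height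
at rational points near a point where the family may **degenerate**: with few exceptions the endomorphism ring commutes with the
monodromy, so it is the ring of the generic member, and it is `ℤ` if the monodromy is big.

Let `A → V` be a family of abelian varieties over `ℚ` over the complement `V` of a divisor with normal crossings near the point `0`
of an affine space of **any dimension `m`**, with unipotent local monodromies. The period matrix (`n = 2 g`) in a rational
basis of the canonical extension of `H¹` is `Ω x_1^(R_1) ⋯ x_m^(R_m) Z(x)`; the `R_i` are the residues, commuting nilpotent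
matrices (they can be made integral), `Z` is a matrix of G-functions over `ℚ` in `m` variables, and `Ω` is the period matrix of
the limit. In the direction `a ∈ ℤ^m` it is `P(a u) = C u^R Z(a u)`, where `R = ∑_i R_i` and `C = Ω ∏_i a_i^(R_i)` is the period
matrix of the limit mixed Hodge structure at the tangential base point `a`. For the rational point `a / b` the period matrix of
the fibre is `P = C exp (-log(b) R) Z(a / b)`. An endomorphism acts by `X` on Betti cohomology and by `Y` on de Rham cohomology, and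
`X P = P Y`; `X` is integral and the entries of `Y` are algebraic numbers of degree at most `e`, where `e` depends only on `g`
(Silverberg), so our statements for such `e` are about **all** endomorphisms over `ℚ̄`. We consider `N` such abelian varieties
`V_j` at `N` points `a_j / b_j` and another object `V_0` with period matrix `C₀`.

**Theorem.** Fix `m, n, N, r₀, M, q, s, ℓ, e`. There is `E` with the following property for all complex numbers
`β_1, …, β_s`, all `H, h, w` and all `b₀ ≥ (2 H (h + w + 2))^E`. We consider (`Fibres.Valid`)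

* **all** tuples `b_1, …, b_N` of denominators in the window `[b₀, b₀ + w]`, at most `M` of them different, such that the
  distances of different `b_j` are larger than `2^(m+1) H (h + 2)`,
* **all** families, that is, all commuting nilpotent integral `R_{ji}` and all `n × n` systems
  `T (x_i ∂Z_j / ∂x_i + R_{ji} Z_j) = Z_j A_{ji}` of degree at most `q`, for which the height of the system and the growth
  constants of the coefficients and of the denominators of `Z_j` and `Z_j⁻¹` are at most `H`,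
* **all** numerators `a_j ∈ ℤ^m` with `|a_j| ≤ h`, such that the line `ℚ a_j` is not contained in the polar locus `T = 0`,
* **all** numbers `γ_1, …, γ_ℓ` and **all** limits such that, up to a common factor `κ`, the periods (entries of the `C_j` and of
  `C₀`) are algebraic of degree at most `e` over `ℚ(β_1, …, β_s, γ_1, …, γ_ℓ)`, and the period matrices are invertible,
* any space `𝔤` of tuples `(X_1, …, X_N)` of matrices, stable under the conjugation by `exp (λ R_j)` (`Fibres.twist`), such that,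
  for each `c`, the tuple of the `X_j` with `b_j = c` is an infinitesimal symmetry of the restrictions of the `Z_j` with
  `b_j = c` to the lines `ℚ a_j`. If the monodromy groups of the families on the lines are connected (they are semisimple:
  Deligne) then their Lie algebras are such spaces; for `𝔤` the product of these Lie algebras for the different
  denominators `C 𝔤 C⁻¹` is the Lie algebra of the (joint) monodromy group.

Then:

1. For any number of tuples as above, of any families, the denominators of which are at distance larger than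
   `2^(m+1) H (h + 2)` for different tuples, there are `ρ_1, ρ_2, …` with `∑ ρ_l ≤ s + 1` such that for the tuple with
   number `l` **the part of `C 𝔤 C⁻¹` which commutes with all endomorphisms of `V_0 ⊕ V_1 ⊕ … ⊕ V_N` has codimension at most
   `ρ_l + ℓ`** (`Fibres.EndomorphismsUpTo`). If the monodromy is big, that is, if `𝔤` contains the Lie algebras of the
   symplectic groups in all components, and `ρ_l + ℓ + 2 ≤ n`, then the endomorphisms of `V_0 ⊕ V_1 ⊕ … ⊕ V_N` are
   `X₀ ⊕ c_1 ⊕ … ⊕ c_N` (`Fibres.OnlyScalars`): **`End(V_j) = ℤ` for all `j`**, and the `V_j` are pairwise not isogenous and have no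
   isogeny factor in common with `V_0`.
2. **Few exceptional denominators:** for each `r ≥ ℓ` there is a set `F` of at most `M ⌊(s + 1) / (r + 1 - ℓ)⌋` denominators such
   that the two statements are true with `r` instead of `ρ_l + ℓ` for **all** tuples of fibres as above whose denominators are at
   distance larger than `2^(m+1) H (h + 2)` from the elements of `F`. The set `F` depends on `β_1, …, β_s` and on the window only,
   not on the families, the limits, the points or `V_0`.
3. **Without windows:** there is `k`, which depends only on `m, n, N, r₀, q, s, ℓ, e`, such that for all `β_1, …, β_s`, `H` and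
   `h` the number of the integers `b ≤ B` which are the denominators of some tuple of points `a_j / b` as above, of any
   families, for which this is not true with `r = ℓ`, is `O(B^(1 - 1/k))`.

For `ℓ = r = 0` there are **arbitrary** degenerations and arbitrary monodromy groups: with at most `M (s + 1)` exceptional
denominators in each window all endomorphisms of the fibres commute with the monodromy, so `End(A_(a/b))` is the endomorphism
ring of the generic member (theorem of the fixed part). If `s + ℓ + 3 ≤ 2 g` then part 2 with `r = s + ℓ + 1` has **no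
exceptions**: all members at the points `a / b`, `|a| ≤ h`, `b ≥ (2 H (h + 2))^E`, of all families with big monodromy have
`End = ℤ`. For example this is so for `g ≥ 2` if the limit is a sum of Tate structures up to isogeny (`s = 1`, `β_1 = 2 π i`: maximal
degenerations for which the leading coefficients of the multiplicative periods are roots of unity).

André's method (G-functions and geometry, Chapter X) bounds the heights of some of the points with more endomorphisms, for
one-parameter families with totally degenerate reduction; the theorem here is for all degenerations and for bases of all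
dimensions, uniformly in the families and with few exceptions near the centre only. `FewCMFibresNearDegenerate` (MP_2794d1_ag) is
the statement with `r = ℓ = 0`, without `V_0`, for Hodge tensors of bounded degree if integral points of the monodromy group are
Zariski dense. That the period matrices have this form, the facts on the monodromy groups and on endomorphisms are from the
literature and not part of the Lean theorem.

Proof (`Pool/Agent/H885`). (i) A linear independence theorem for values of G-functions at `1 / t` in which all constants are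
explicit powers of the height of the system, with Galochkin's condition for `x^R Z` (`GN`), and twisted shifts (`EPm`, `TwS`,
`CurTw`): for a common `t₀ > b_j` the matrices `z_j = exp (-log(b_j / t₀) R_j) Z_j(1 / b_j)` are values of G-functions at `1 / t₀`, so
that only one further number `log t₀` is needed for all points of the window: `P_j = C_j exp (-log(t₀) R_j) z_j`. (ii) The
ultraproduct of a sequence of counterexamples has, for each of the separated tuples and each symmetry `X ∈ 𝔤`, a derivation of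
`*ℂ` over `*ℚ` which moves the `z_j` at this tuple by `X` and kills those at all other tuples (`derW`). (iii) By linear algebra the
derivations which kill the `β_i`, `log t₀` and the `γ_i` act on the `z_j` at the tuple `l` by a space of matrices in `𝔤` of
codimension at most `ρ_l + ℓ`, `∑ ρ_l ≤ s + 1` (`coreZ`, `uniformZW`). (iv) A derivation `∂` kills the entries of `X` and `Y`, so
`X ∂P = ∂P Y` and the logarithmic derivative `∂P P⁻¹` commutes with `X`, for all endomorphisms at the same time (`EndR`). (v) The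
symplectic Lie algebra has no proper subalgebra of codimension at most `n - 2` (`Helper880_R3`), so it commutes with all
endomorphisms, and these are scalars by Schur's lemma.
-/

set_option autoImplicit false

open PowerSeries Filter
open scoped Matrix

namespace Pool.Agent.Results.MP_bb3355_nt.EndomorphismsNearDegenerate

section several
variable {n m N : ℕ}

/-- an integer polynomial in `m` variables as a power series with rational coefficients -/
noncomputable def toQ (P : MvPolynomial (Fin m) ℤ) : MvPowerSeries (Fin m) ℚ :=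
  ((P.map (Int.castRingHom ℚ) : MvPolynomial (Fin m) ℚ) : MvPowerSeries (Fin m) ℚ)

/-- the partial derivative `∂f / ∂x_i` -/
noncomputable def partialD (i : Fin m) (f : MvPowerSeries (Fin m) ℚ) : MvPowerSeries (Fin m) ℚ :=
  fun ν => ((ν i : ℚ) + 1) * MvPowerSeries.coeff (ν + Finsupp.single i 1) f

/-- `Z` is an invertible `n × n` matrix of G-functions in `m` variables with rational coefficients, `W = Z⁻¹`, `R_1, …, R_m`
are commuting nilpotent integral matrices, and `x_1^(R_1) ⋯ x_m^(R_m) Z` solves a system with logarithmic poles, that is,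
`T (x_i ∂Z / ∂x_i + R_i Z) = Z A_i`, `i = 1, …, m`. The degrees of `T` and `A_i` are at most `q`; the absolute values of their
coefficients and of the entries of the `R_i` and the growth of the coefficients of `Z` and of the denominators of the
coefficients of `Z` and `W` are bounded by `H`. -/
structure Family (q : ℕ) (H : ℝ) (T : MvPolynomial (Fin m) ℤ) (A : Fin m → Fin n → Fin n → MvPolynomial (Fin m) ℤ)
    (R : Fin m → Matrix (Fin n) (Fin n) ℤ) (Z W : Matrix (Fin n) (Fin n) (MvPowerSeries (Fin m) ℚ)) : Prop where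
  /-- the degree of `T` -/
  degT : T.totalDegree ≤ q
  /-- the height of `T` -/
  sizeT : ∀ ν, |((T.coeff ν : ℤ) : ℝ)| ≤ H
  /-- the degrees of the `A_i` -/
  degA : ∀ i a b, (A i a b).totalDegree ≤ q
  /-- the heights of the `A_i` -/
  sizeA : ∀ i a b ν, |(((A i a b).coeff ν : ℤ) : ℝ)| ≤ H
  /-- the residues commute -/
  comm : ∀ i i', R i * R i' = R i' * R i
  /-- the residues are nilpotent -/
  nil : ∀ i, R i ^ n = 0
  /-- the size of the residues -/
  sizeR : ∀ i a b, |((R i a b : ℤ) : ℝ)| ≤ H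
  /-- the differential equations -/
  ode : ∀ i a b, toQ T * (MvPowerSeries.X i * partialD i (Z a b) + ∑ c, MvPowerSeries.C (R i a c : ℚ) * Z c b) =
    ∑ l, Z a l * toQ (A i l b)
  /-- `W` is the inverse of `Z` -/
  inv : W * Z = 1
  /-- the growth of the coefficients -/
  size : ∀ a b (ν : Fin m →₀ ℕ), |((MvPowerSeries.coeff ν (Z a b) : ℚ) : ℝ)| ≤ H ^ (∑ i, ν i + 1)
  /-- the growth of the common denominators of the coefficients -/
  den : ∀ k : ℕ, ∃ d : ℕ, 0 < d ∧ (d : ℝ) ≤ H ^ (k + 1) ∧ ∀ a b (ν : Fin m →₀ ℕ), ∑ i, ν i ≤ k →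
    (∃ z : ℤ, (d : ℚ) * MvPowerSeries.coeff ν (Z a b) = z) ∧ ∃ z : ℤ, (d : ℚ) * MvPowerSeries.coeff ν (W a b) = z

/-- the matrix `R_1 + … + R_m`, the residue of the restriction to a line through `0`, over `ℂ` -/
noncomputable def residue (R : Fin m → Matrix (Fin n) (Fin n) ℤ) : Matrix (Fin n) (Fin n) ℂ :=
  (∑ i, R i).map (Int.castRingHom ℂ)

/-- the power series `f(x a)` in the variable `x`, the restriction of `f` to the line through `0` with direction `a` -/
noncomputable def restrict (a : Fin m → ℤ) (f : MvPowerSeries (Fin m) ℚ) : PowerSeries ℚ :=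
  PowerSeries.mk fun k => ∑ ν ∈ (Finset.univ : Finset (Fin m)).finsuppAntidiag k,
    MvPowerSeries.coeff ν f * ∏ i, (a i : ℚ) ^ ν i

/-- the value `Z(a / b)`, that is, the value of the restriction of `Z` to the line at `x = 1 / b` -/
noncomputable def value (Z : Matrix (Fin n) (Fin n) (MvPowerSeries (Fin m) ℚ)) (a : Fin m → ℤ) (b : ℕ) :
    Matrix (Fin n) (Fin n) ℂ :=
  Matrix.of fun i j => ((∑' k : ℕ, ((coeff k (restrict a (Z i j)) : ℚ) : ℝ) * (1 / (b : ℝ)) ^ k : ℝ) : ℂ)

/-- the matrix `u^(R_1 + … + R_m) Z(a u)` at `u = 1 / b`, that is, `exp (-log(b) (R_1 + … + R_m)) Z(a / b)` -/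
noncomputable def solution (R : Fin m → Matrix (Fin n) (Fin n) ℤ) (Z : Matrix (Fin n) (Fin n) (MvPowerSeries (Fin m) ℚ))
    (a : Fin m → ℤ) (b : ℕ) : Matrix (Fin n) (Fin n) ℂ :=
  NormedSpace.exp (-((Real.log b : ℂ) • residue R)) * value Z a b

/-- the restriction of `Z` to the line with direction `a`, over `ℂ` -/
noncomputable def onLine (a : Fin m → ℤ) (Z : Matrix (Fin n) (Fin n) (MvPowerSeries (Fin m) ℚ)) :
    Matrix (Fin n) (Fin n) (PowerSeries ℂ) :=
  Z.map fun f => PowerSeries.map (algebraMap ℚ ℂ) (restrict a f)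

/-- `(X_1, …, X_N)` is an infinitesimal symmetry of the matrices `Y_1, …, Y_N` of power series: for all polynomial relations
`R(x, Y_1(x), …, Y_N(x)) = 0` over `ℂ[x]` the derivative of `R(x, (1 + ε X_1) Y_1(x), …, (1 + ε X_N) Y_N(x))` at `ε = 0` is
zero. -/
def Symmetry (Y : Fin N → Matrix (Fin n) (Fin n) (PowerSeries ℂ)) (X : Fin N → Matrix (Fin n) (Fin n) ℂ) : Prop :=
  ∀ R : MvPolynomial (Fin N × Fin n × Fin n) (Polynomial ℂ),
    MvPolynomial.aeval (fun σ => Y σ.1 σ.2.1 σ.2.2) R = 0 →
    ∑ σ, MvPolynomial.aeval (fun σ => Y σ.1 σ.2.1 σ.2.2) (MvPolynomial.pderiv σ R) *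
      ((X σ.1).map (PowerSeries.C (R := ℂ)) * Y σ.1) σ.2.1 σ.2.2 = 0

end several

/-- `y` satisfies an equation `P(ξ, y) = 0` where `P` has rational coefficients and total degree at most `e` and `P(ξ, Y)` is
not the zero polynomial. All algebraic numbers of degree at most `e` and all polynomials of degree at most `e` in the `ξ_i` with
rational coefficients have this property. -/
def AlgebraicOver (e : ℕ) {u : ℕ} (ξ : Fin u → ℂ) (y : ℂ) : Prop :=
  ∃ P : MvPolynomial (Option (Fin u)) ℚ, P.totalDegree ≤ e ∧ MvPolynomial.aeval (fun o : Option (Fin u) => o.elim y ξ) P = 0 ∧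
    ∃ y' : ℂ, MvPolynomial.aeval (fun o : Option (Fin u) => o.elim y' ξ) P ≠ 0

/-- numbers which are algebraic over `ℚ(ξ_1, …, ξ_u)` are algebraic of bounded degree -/
theorem algebraicOver_of_isAlgebraic {u : ℕ} {ξ : Fin u → ℂ} {y : ℂ}
    (h : IsAlgebraic (IntermediateField.adjoin ℚ (Set.range ξ)) y) : ∃ e, AlgebraicOver e ξ y :=
  Pool.Agent.H885.algD_of_alg h

/-- the distance of `b` and `c` is larger than `2^(m+1) H (h + 2)` -/
def Far (m : ℕ) (H : ℝ) (h b c : ℕ) : Prop := 2 ^ (m + 1) * H * ((h : ℝ) + 2) < |(b : ℝ) - c|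
section
variable {n N r₀ : ℕ}

/-- the block matrix `x ⊕ X_1 ⊕ … ⊕ X_N` -/
def total (x : Matrix (Fin r₀) (Fin r₀) ℂ) (X : Fin N → Matrix (Fin n) (Fin n) ℂ) :
    Matrix (Fin r₀ ⊕ (Fin n × Fin N)) (Fin r₀ ⊕ (Fin n × Fin N)) ℂ :=
  Matrix.fromBlocks x 0 0 (Matrix.blockDiagonal X)

/-- the tuples of the matrices `C_j X_j C_j⁻¹` with `X ∈ 𝔤` -/
def conjugate (C : Fin N → Matrix (Fin n) (Fin n) ℂ) (𝔤 : Submodule ℂ (Fin N → Matrix (Fin n) (Fin n) ℂ)) :
    Submodule ℂ (Fin N → Matrix (Fin n) (Fin n) ℂ) where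
  carrier := {Y | ∃ X ∈ 𝔤, ∀ j, Y j = C j * X j * (C j)⁻¹}
  zero_mem' := ⟨0, 𝔤.zero_mem, fun j => by rw [Pi.zero_apply, Matrix.mul_zero, Matrix.zero_mul]⟩
  add_mem' := by
    rintro Y Y' ⟨X, hX, h⟩ ⟨X', hX', h'⟩
    refine ⟨X + X', 𝔤.add_mem hX hX', fun j => ?_⟩
    rw [Pi.add_apply, Pi.add_apply, Matrix.mul_add, Matrix.add_mul, h, h']
  smul_mem' := by
    rintro c Y ⟨X, hX, h⟩
    refine ⟨c • X, 𝔤.smul_mem c hX, fun j => ?_⟩
    rw [Pi.smul_apply, Pi.smul_apply, Matrix.mul_smul, Matrix.smul_mul, h]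

end
section blocks
variable {n N r₀ : ℕ}

/-- the space of all `(X_1, …, X_N)` with `0 ⊕ X_1 ⊕ … ⊕ X_N ∈ 𝔥` -/
def inBlocks (𝔥 : Submodule ℂ (Matrix (Fin r₀ ⊕ (Fin n × Fin N)) (Fin r₀ ⊕ (Fin n × Fin N)) ℂ)) :
    Submodule ℂ (Fin N → Matrix (Fin n) (Fin n) ℂ) where
  carrier := {X | total 0 X ∈ 𝔥}
  zero_mem' := by
    have h : total (0 : Matrix (Fin r₀) (Fin r₀) ℂ) (0 : Fin N → Matrix (Fin n) (Fin n) ℂ) = 0 :=
      Pool.Agent.Helper880_EX.Tot_zero
    show total 0 (0 : Fin N → Matrix (Fin n) (Fin n) ℂ) ∈ 𝔥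
    rw [h]
    exact 𝔥.zero_mem
  add_mem' := by
    intro X Y hX hY
    have h : total (0 : Matrix (Fin r₀) (Fin r₀) ℂ) (X + Y) = total 0 X + total 0 Y := Pool.Agent.Helper880_EX.Tot_add _ _
    show total 0 (X + Y) ∈ 𝔥
    rw [h]
    exact 𝔥.add_mem hX hY
  smul_mem' := by
    intro c X hX
    have h : total (0 : Matrix (Fin r₀) (Fin r₀) ℂ) (c • X) = c • total 0 X := Pool.Agent.Helper880_EX.Tot_smul _ _
    show total 0 (c • X) ∈ 𝔥
    rw [h]
    exact 𝔥.smul_mem _ hX
end blocks

/-- `y` is an algebraic number of degree at most `e` -/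
def AlgebraicNumber (e : ℕ) (y : ℂ) : Prop := ∃ p : Polynomial ℚ, p ≠ 0 ∧ p.natDegree ≤ e ∧ Polynomial.aeval y p = 0

section endomorphisms
variable {B : Type} [Fintype B] [DecidableEq B]

/-- **Endomorphisms.** `P` is the period matrix of `V`, that is, the matrix of the comparison isomorphism from `V_dR` to `V_B` for
bases over `ℚ`. The matrices `X` and `Y` are the actions of an endomorphism on Betti cohomology and on de Rham cohomology;
their entries are algebraic numbers of degree at most `e`. All endomorphisms of abelian varieties over `ℚ` of a given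
dimension are of this kind for some `e`: `X` is integral, and the endomorphisms (over the algebraic closure) are defined over
a field of bounded degree (Silverberg). -/
structure IsEndomorphism (e : ℕ) (P X Y : Matrix B B ℂ) : Prop where
  /-- the action on Betti cohomology, for example an integral matrix -/
  betti : ∀ i j, AlgebraicNumber e (X i j)
  /-- the action on de Rham cohomology -/
  deRham : ∀ i j, AlgebraicNumber e (Y i j)
  /-- they are compatible with the comparison isomorphism -/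
  compatible : X * P = P * Y

/-- the matrices which commute with all endomorphisms (with entries of degree at most `e`) -/
def commutant (e : ℕ) (P : Matrix B B ℂ) : Submodule ℂ (Matrix B B ℂ) where
  carrier := {A | ∀ X Y, IsEndomorphism e P X Y → A * X = X * A}
  zero_mem' := fun X Y _ => by rw [Matrix.zero_mul, Matrix.mul_zero]
  add_mem' := by
    intro A A' hA hA' X Y h
    rw [Matrix.add_mul, Matrix.mul_add, hA X Y h, hA' X Y h]
  smul_mem' := by
    intro c A hA X Y h
    rw [Matrix.smul_mul, Matrix.mul_smul, hA X Y h]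

end endomorphisms

/-- A tuple of `N` fibres: denominators `b_j` and numerators `a_j` of the points, systems `T_j, A_j, R_j`, their fundamental matrices
`Z_j` and `W_j = Z_j⁻¹`, the period matrices `C_j` of the limits and `C₀` of the mixed Hodge structure `V_0`, a factor
`κ` and `ℓ` further numbers `γ`, and a space `𝔤` of tuples of matrices, for instance the Lie algebra of the differential
Galois group of the restrictions of the systems to the lines through `0` and the points. -/
structure Fibres (m n N r₀ ℓ : ℕ) where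
  /-- the denominators of the points -/
  b : Fin N → ℕ
  /-- the numerators of the points -/
  a : Fin N → Fin m → ℤ
  /-- the denominators of the systems -/
  T : Fin N → MvPolynomial (Fin m) ℤ
  /-- the matrices of the systems -/
  A : Fin N → Fin m → Fin n → Fin n → MvPolynomial (Fin m) ℤ
  /-- the residues -/
  R : Fin N → Fin m → Matrix (Fin n) (Fin n) ℤ
  /-- the fundamental matrices -/
  Z : Fin N → Matrix (Fin n) (Fin n) (MvPowerSeries (Fin m) ℚ)
  /-- their inverses -/
  W : Fin N → Matrix (Fin n) (Fin n) (MvPowerSeries (Fin m) ℚ)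
  /-- further constants -/
  γ : Fin ℓ → ℂ
  /-- the common factor of the periods -/
  κ : ℂ
  /-- the periods of `V_0` -/
  C₀ : Matrix (Fin r₀) (Fin r₀) ℂ
  /-- the periods of the limits -/
  C : Fin N → Matrix (Fin n) (Fin n) ℂ
  /-- symmetries -/
  𝔤 : Submodule ℂ (Fin N → Matrix (Fin n) (Fin n) ℂ)

section fibres
variable {m n N r₀ ℓ s : ℕ}

/-- the period matrices `C_j exp (-log(b_j) R_j) Z_j(a_j / b_j)` of the fibres -/
noncomputable def Fibres.periods (x : Fibres m n N r₀ ℓ) : Fin N → Matrix (Fin n) (Fin n) ℂ :=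
  fun j => x.C j * solution (x.R j) (x.Z j) (x.a j) (x.b j)

/-- the conjugates `exp (λ R_j) X_j exp (-λ R_j)` -/
noncomputable def Fibres.twist (x : Fibres m n N r₀ ℓ) (lam : ℂ) (X : Fin N → Matrix (Fin n) (Fin n) ℂ) :
    Fin N → Matrix (Fin n) (Fin n) ℂ :=
  fun j => NormedSpace.exp (lam • residue (x.R j)) * X j * NormedSpace.exp (-(lam • residue (x.R j)))

/-- The conditions for a tuple of fibres, see the description of the theorem. -/
structure Fibres.Valid (q M e : ℕ) (β : Fin s → ℂ) (H : ℝ) (h w b₀ : ℕ) (x : Fibres m n N r₀ ℓ) : Prop where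
  /-- the denominators are in the window `[b₀, b₀ + w]` -/
  window : ∀ j, b₀ ≤ x.b j ∧ x.b j ≤ b₀ + w
  /-- they are equal or far from each other -/
  far : ∀ i j, x.b i = x.b j ∨ Far m H h (x.b i) (x.b j)
  /-- at most `M` of them are different -/
  different : (Finset.univ.image x.b).card ≤ M
  /-- the numerators are bounded by `h` -/
  numerators : ∀ j i, |x.a j i| ≤ h
  /-- the systems have degree at most `q`, height and growth constants at most `H` -/
  family : ∀ j, Family q H (x.T j) (x.A j) (x.R j) (x.Z j) (x.W j)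
  /-- the lines are not contained in the polar loci -/
  pole : ∀ j, restrict (x.a j) (toQ (x.T j)) ≠ 0
  /-- the factor is not zero -/
  factor : x.κ ≠ 0
  /-- the periods of `V_0` are algebraic over `ℚ(β, γ)`, up to the factor -/
  central₀ : ∀ i i', AlgebraicOver e (Fin.append β x.γ) (x.κ * x.C₀ i i')
  /-- the periods of the limits are algebraic over `ℚ(β, γ)`, up to the factor -/
  central : ∀ j i i', AlgebraicOver e (Fin.append β x.γ) (x.κ * x.C j i i')
  /-- the period matrices are invertible -/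
  invertible : IsUnit (total x.C₀ x.periods)
  /-- `𝔤` consists of infinitesimal symmetries, separately for each denominator `c` -/
  symmetries : ∀ X ∈ x.𝔤, ∀ c : ℕ,
    Symmetry (fun j => if x.b j = c then onLine (x.a j) (x.Z j) else 1) (fun j => if x.b j = c then X j else 0)
  /-- `𝔤` is stable under the conjugation by `exp (λ R)` -/
  stable : ∀ X ∈ x.𝔤, ∀ lam : ℂ, x.twist lam X ∈ x.𝔤
/-- The monodromy commutes with all endomorphisms up to codimension `r`: the subspace of `C 𝔤 C⁻¹` (the Lie algebra of the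
monodromy group) of all elements which commute with **all** endomorphisms (with entries of degree at most `e`) of the object
`V_0 ⊕ V_1 ⊕ … ⊕ V_N` has codimension at most `r`. -/
def Fibres.EndomorphismsUpTo (e r : ℕ) (x : Fibres m n N r₀ ℓ) : Prop :=
  Module.finrank ℂ (conjugate x.C x.𝔤) ≤
    Module.finrank ℂ (conjugate x.C x.𝔤 ⊓ inBlocks (commutant e (total x.C₀ x.periods)) :
      Submodule ℂ (Fin N → Matrix (Fin n) (Fin n) ℂ)) + r

/-- **Only scalars for big monodromy.** If `𝔤` contains the Lie algebras of the symplectic groups of nondegenerate alternating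
forms in all components and `r + 2 ≤ n`, then each endomorphism of `V_0 ⊕ V_1 ⊕ … ⊕ V_N` is `X₀ ⊕ c_1 ⊕ … ⊕ c_N` with
numbers `c_j`. So the `V_j`, `j ≥ 1`, have no endomorphisms except the scalars, and there are no homomorphisms between
`V_i` and `V_j`, `i ≠ j`, and between `V_0` and `V_j`. -/
def Fibres.OnlyScalars (e r : ℕ) (x : Fibres m n N r₀ ℓ) : Prop :=
  r + 2 ≤ n → (∀ j : Fin N, ∃ B : Matrix (Fin n) (Fin n) ℂ, IsUnit B ∧ Bᵀ = -B ∧ ∀ X : Matrix (Fin n) (Fin n) ℂ,
    X * B + B * Xᵀ = 0 → (Pi.single j X : Fin N → Matrix (Fin n) (Fin n) ℂ) ∈ x.𝔤) →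
  ∀ X Y, IsEndomorphism e (total x.C₀ x.periods) X Y →
    ∃ (X₀ : Matrix (Fin r₀) (Fin r₀) ℂ) (c : Fin N → ℂ), X = total X₀ fun j => c j • 1

/-- the denominators of two tuples of fibres are far from each other -/
def Separated (H : ℝ) (h : ℕ) (x y : Fibres m n N r₀ ℓ) : Prop := ∀ i j, Far m H h (x.b i) (y.b j)

/-- the denominators `b ≤ B` of the tuples of points `a_j / b` which satisfy the conditions (for the window `{b}`) but for which
one of the two conclusions with `r = ℓ` is not true -/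
def exceptional (m n N r₀ ℓ : ℕ) (q e : ℕ) (β : Fin s → ℂ) (H : ℝ) (h B : ℕ) : Set ℕ :=
  {b | b ≤ B ∧ ∃ x : Fibres m n N r₀ ℓ, x.Valid q 1 e β H h 0 b ∧ (∀ j, x.b j = b) ∧
    ¬ (x.EndomorphismsUpTo e ℓ ∧ x.OnlyScalars e ℓ)}

end fibres

/-! ## Proofs -/

theorem base_of {m n q : ℕ} {H : ℝ} (hH : 1 ≤ H) {T : MvPolynomial (Fin m) ℤ}
    {A : Fin m → Fin n → Fin n → MvPolynomial (Fin m) ℤ} {R : Fin m → Matrix (Fin n) (Fin n) ℤ}
    {Z W : Matrix (Fin n) (Fin n) (MvPowerSeries (Fin m) ℚ)}
    (h : Family q H T A R Z W) : Pool.Agent.H885.FamN q H T A R Z W :=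
  ⟨hH, h.degT, h.sizeT, h.degA, h.sizeA, h.comm, h.nil, h.sizeR, h.ode, h.inv, h.size, h.den⟩

/-- the solution in terms of the polynomials for the exponential function -/
theorem solution_eq {m n q : ℕ} {H : ℝ} {T : MvPolynomial (Fin m) ℤ}
    {A : Fin m → Fin n → Fin n → MvPolynomial (Fin m) ℤ} {R : Fin m → Matrix (Fin n) (Fin n) ℤ}
    {Z W : Matrix (Fin n) (Fin n) (MvPowerSeries (Fin m) ℚ)} (h : Family q H T A R Z W) (a : Fin m → ℤ) (b : ℕ) :
    solution R Z a b = Pool.Agent.H885.eP (∑ i, R i) (Complex.log (b : ℝ)) * value Z a b := by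
  unfold solution residue
  rw [Pool.Agent.H885.eP_nexp (Pool.Agent.H885.sumR_nil h.comm h.nil), Complex.ofReal_log (by positivity)]

theorem sym_cent {m n N : ℕ} (Z : Fin N → Matrix (Fin n) (Fin n) (MvPowerSeries (Fin m) ℚ)) (a : Fin N → Fin m → ℤ)
    (b : Fin N → ℕ) (β : ℕ) :
    Pool.Agent.H885.cent (Pool.Agent.H885.part b (fun j => Pool.Agent.H885.lineM (a j) (Z j)) β) =
      fun σ : Fin N × Fin n × Fin n => (if b σ.1 = β then onLine (a σ.1) (Z σ.1) else 1) σ.2.1 σ.2.2 := by
  funext σ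
  unfold Pool.Agent.H885.cent Pool.Agent.H885.part
  by_cases hb : b σ.1 = β
  · rw [if_pos hb, if_pos hb]
    rfl
  · rw [if_neg hb, if_neg hb, Matrix.one_apply, Matrix.one_apply]
    split_ifs
    · exact map_one _
    · exact map_zero _

theorem sym_inf {m n N : ℕ} {Z : Fin N → Matrix (Fin n) (Fin n) (MvPowerSeries (Fin m) ℚ)} {a : Fin N → Fin m → ℤ}
    {b : Fin N → ℕ} {β : ℕ} {X : Fin N → Matrix (Fin n) (Fin n) ℂ} :
    Symmetry (fun j => if b j = β then onLine (a j) (Z j) else 1) (fun j => if b j = β then X j else 0) ↔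
    Pool.Agent.H885.InfT (Pool.Agent.H885.part b (fun j => Pool.Agent.H885.lineM (a j) (Z j)) β)
      (fun j => if b j = β then X j else 0) := by
  have h1 := sym_cent Z a b β
  constructor
  · intro h R hR
    rw [h1] at hR ⊢
    refine Eq.trans ?_ (h R hR)
    refine Finset.sum_congr rfl fun σ _ => ?_
    rw [Matrix.mul_apply]
    rfl
  · intro h R hR
    have h2 := h R (by
      rw [h1]
      exact hR)
    rw [h1] at h2
    refine Eq.trans ?_ h2
    refine Finset.sum_congr rfl fun σ _ => ?_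
    rw [Matrix.mul_apply]
    rfl

theorem far_symm {m : ℕ} {H : ℝ} {h b c : ℕ} (hbc : Far m H h b c) : Far m H h c b := by
  unfold Far at hbc ⊢
  rw [abs_sub_comm]
  exact hbc

/-- the conjugates in terms of the polynomials for the exponential function -/
theorem twist_eq {m n N r₀ ℓ : ℕ} {x : Fibres m n N r₀ ℓ} (hR : ∀ j, (∑ i, x.R j i) ^ n = 0) (lam : ℂ)
    (X : Fin N → Matrix (Fin n) (Fin n) ℂ) (j : Fin N) :
    x.twist lam X j = Pool.Agent.H885.eP (∑ i, x.R j i) (-lam) * X j * Pool.Agent.H885.eP (∑ i, x.R j i) lam := by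
  unfold Fibres.twist residue
  rw [Pool.Agent.H885.eP_nexp (hR j), Pool.Agent.H885.eP_nexp (hR j), neg_smul, neg_neg]

/-- the conjugate space does not depend on the point of reference -/
theorem conj_twist {m n N r₀ ℓ : ℕ} {x : Fibres m n N r₀ ℓ} (hR : ∀ j, (∑ i, x.R j i) ^ n = 0)
    (hst : ∀ X ∈ x.𝔤, ∀ lam : ℂ, x.twist lam X ∈ x.𝔤) (lt : ℂ) :
    Pool.Agent.H885.conjT (fun j => x.C j * Pool.Agent.H885.eP (∑ i, x.R j i) lt) x.𝔤 =
      Pool.Agent.H885.conjT x.C x.𝔤 := by
  have hi1 : ∀ j, Pool.Agent.H885.eP (∑ i, x.R j i) (-lt) * Pool.Agent.H885.eP (∑ i, x.R j i) lt = 1 := fun j =>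
    Pool.Agent.H885.eP_inv (hR j) lt
  have hi2 : ∀ j, Pool.Agent.H885.eP (∑ i, x.R j i) lt * Pool.Agent.H885.eP (∑ i, x.R j i) (-lt) = 1 := fun j => by
    have h1 := Pool.Agent.H885.eP_inv (hR j) (-lt)
    rwa [neg_neg] at h1
  have hinv : ∀ j, (x.C j * Pool.Agent.H885.eP (∑ i, x.R j i) lt)⁻¹ = Pool.Agent.H885.eP (∑ i, x.R j i) (-lt) * (x.C j)⁻¹ :=
    fun j => by rw [Matrix.mul_inv_rev, Matrix.inv_eq_left_inv (hi1 j)]
  ext Y
  constructor
  · rintro ⟨X, hX, h⟩
    refine ⟨x.twist (-lt) X, hst X hX _, fun j => ?_⟩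
    rw [h j, hinv, twist_eq hR, neg_neg]
    simp only [Matrix.mul_assoc]
  · rintro ⟨X, hX, h⟩
    refine ⟨x.twist lt X, hst X hX _, fun j => ?_⟩
    rw [h j, hinv, twist_eq hR]
    have h1 : x.C j * Pool.Agent.H885.eP (∑ i, x.R j i) lt * (Pool.Agent.H885.eP (∑ i, x.R j i) (-lt) * X j *
        Pool.Agent.H885.eP (∑ i, x.R j i) lt) * (Pool.Agent.H885.eP (∑ i, x.R j i) (-lt) * (x.C j)⁻¹) =
        x.C j * (Pool.Agent.H885.eP (∑ i, x.R j i) lt * Pool.Agent.H885.eP (∑ i, x.R j i) (-lt)) * X j *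
          (Pool.Agent.H885.eP (∑ i, x.R j i) lt * Pool.Agent.H885.eP (∑ i, x.R j i) (-lt)) * (x.C j)⁻¹ := by
      simp only [Matrix.mul_assoc]
    rw [h1, hi2, Matrix.mul_one, Matrix.mul_one]

/-- the periods -/
theorem periods_eq {m n N r₀ ℓ q : ℕ} {H : ℝ} {x : Fibres m n N r₀ ℓ} (hF : ∀ j, Family q H (x.T j) (x.A j) (x.R j) (x.Z j) (x.W j))
    {t₀ : ℕ} (ht₀ : 0 < t₀) (hb : ∀ j, 0 < x.b j) (j : Fin N) :
    solution (x.R j) (x.Z j) (x.a j) (x.b j) = Pool.Agent.H885.eP (∑ i, x.R j i) (Complex.log (t₀ : ℝ)) *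
      Pool.Agent.H885.zT t₀ (∑ i, x.R j i) (Pool.Agent.H885.lineM (x.a j) (x.Z j)) (x.b j) := by
  rw [solution_eq (hF j)]
  unfold Pool.Agent.H885.zT
  have hb' : (0 : ℝ) < x.b j := by exact_mod_cast hb j
  have ht' : (0 : ℝ) < t₀ := by exact_mod_cast ht₀
  have h1 : Complex.log ((x.b j : ℝ) : ℂ) = Complex.log ((t₀ : ℝ) : ℂ) + Complex.log (((x.b j : ℝ) : ℂ) / ((t₀ : ℝ) : ℂ)) := by
    rw [← Complex.ofReal_div, ← Complex.ofReal_log hb'.le, ← Complex.ofReal_log ht'.le, ← Complex.ofReal_log (by positivity),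
      Real.log_div hb'.ne' ht'.ne']
    push_cast
    ring
  rw [h1, Pool.Agent.H885.eP_add (Pool.Agent.H885.sumR_nil (hF j).comm (hF j).nil), ← Matrix.mul_assoc]
  rfl
/-! ### Consequences for big monodromy -/

theorem en_iff {B : Type} [Fintype B] [DecidableEq B] {e : ℕ} {P X Y : Matrix B B ℂ} :
    IsEndomorphism e P X Y ↔ Pool.Agent.H885.ENR.En e P X Y :=
  ⟨fun h => ⟨h.betti, h.deRham, h.compatible⟩, fun h => ⟨h.algX, h.algY, h.eq⟩⟩

theorem commutant_eq {B : Type} [Fintype B] [DecidableEq B] {e : ℕ} {P : Matrix B B ℂ} :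
    commutant e P = Pool.Agent.H885.ENR.cen e P := by
  ext A
  exact ⟨fun h X Y hc => h X Y (en_iff.2 hc), fun h X Y hc => h X Y (en_iff.1 hc)⟩

section entries
variable {n N r₀ : ℕ}

theorem single_inr (j : Fin N) (H : Matrix (Fin n) (Fin n) ℂ) (u k : Fin n) (a b : Fin N) :
    total (0 : Matrix (Fin r₀) (Fin r₀) ℂ) (Pi.single j H) (Sum.inr (u, a)) (Sum.inr (k, b)) =
      if a = j ∧ b = j then H u k else 0 := by
  unfold total
  rw [Matrix.fromBlocks_apply₂₂, Matrix.blockDiagonal_apply]
  by_cases hab : a = b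
  · subst hab
    rw [if_pos rfl]
    by_cases ha : a = j
    · subst ha
      rw [if_pos ⟨rfl, rfl⟩, Pi.single_eq_same]
    · rw [if_neg (fun h : a = j ∧ a = j => ha h.1), Pi.single_eq_of_ne ha]
      rfl
  · rw [if_neg (show ¬ (u, a).2 = (k, b).2 from hab), if_neg (fun h => hab (h.1.trans h.2.symm))]

/-- the index `i` is not in the component `j` -/
def Out (j : Fin N) : Fin r₀ ⊕ (Fin n × Fin N) → Prop := Sum.elim (fun _ => True) fun p => p.2 ≠ j

theorem single_out_left {j : Fin N} {i : Fin r₀ ⊕ (Fin n × Fin N)} (hi : Out j i) (H : Matrix (Fin n) (Fin n) ℂ)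
    (k : Fin r₀ ⊕ (Fin n × Fin N)) : total (0 : Matrix (Fin r₀) (Fin r₀) ℂ) (Pi.single j H) i k = 0 := by
  rcases i with i | ⟨i, a⟩ <;> rcases k with k | ⟨k, b⟩
  · rfl
  · rfl
  · rfl
  · rw [single_inr, if_neg (fun h => hi h.1)]

theorem single_out_right {j : Fin N} {k : Fin r₀ ⊕ (Fin n × Fin N)} (hk : Out j k) (H : Matrix (Fin n) (Fin n) ℂ)
    (i : Fin r₀ ⊕ (Fin n × Fin N)) : total (0 : Matrix (Fin r₀) (Fin r₀) ℂ) (Pi.single j H) i k = 0 := by
  rcases i with i | ⟨i, a⟩ <;> rcases k with k | ⟨k, b⟩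
  · rfl
  · rfl
  · rfl
  · rw [single_inr, if_neg (fun h => hk h.2)]

theorem sum_comp {j : Fin N} {f : Fin r₀ ⊕ (Fin n × Fin N) → ℂ} (hf : ∀ i, Out j i → f i = 0) :
    ∑ i, f i = ∑ k : Fin n, f (Sum.inr (k, j)) := by
  rw [Fintype.sum_sum_type, Finset.sum_eq_zero (fun i _ => hf (Sum.inl i) trivial), zero_add, Fintype.sum_prod_type]
  refine Finset.sum_congr rfl fun k _ => ?_
  refine Finset.sum_eq_single j (fun b _ hb => hf (Sum.inr (k, b)) hb) fun h => absurd (Finset.mem_univ _) h

theorem mul_left_entry (j : Fin N) (H : Matrix (Fin n) (Fin n) ℂ)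
    (M : Matrix (Fin r₀ ⊕ (Fin n × Fin N)) (Fin r₀ ⊕ (Fin n × Fin N)) ℂ) (u : Fin n) (o : Fin r₀ ⊕ (Fin n × Fin N)) :
    (total (0 : Matrix (Fin r₀) (Fin r₀) ℂ) (Pi.single j H) * M) (Sum.inr (u, j)) o = ∑ k, H u k * M (Sum.inr (k, j)) o := by
  rw [Matrix.mul_apply, sum_comp (j := j) fun i hi => by rw [single_out_right hi, zero_mul]]
  refine Finset.sum_congr rfl fun k _ => ?_
  rw [single_inr, if_pos ⟨rfl, rfl⟩]

theorem mul_right_entry (j : Fin N) (H : Matrix (Fin n) (Fin n) ℂ)
    (M : Matrix (Fin r₀ ⊕ (Fin n × Fin N)) (Fin r₀ ⊕ (Fin n × Fin N)) ℂ) (u : Fin n) (o : Fin r₀ ⊕ (Fin n × Fin N)) :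
    (M * total (0 : Matrix (Fin r₀) (Fin r₀) ℂ) (Pi.single j H)) o (Sum.inr (u, j)) = ∑ k, M o (Sum.inr (k, j)) * H k u := by
  rw [Matrix.mul_apply, sum_comp (j := j) fun i hi => by rw [single_out_left hi, mul_zero]]
  refine Finset.sum_congr rfl fun k _ => ?_
  rw [single_inr, if_pos ⟨rfl, rfl⟩]

theorem mul_left_out {j : Fin N} (H : Matrix (Fin n) (Fin n) ℂ)
    (M : Matrix (Fin r₀ ⊕ (Fin n × Fin N)) (Fin r₀ ⊕ (Fin n × Fin N)) ℂ) {i : Fin r₀ ⊕ (Fin n × Fin N)} (hi : Out j i)
    (o : Fin r₀ ⊕ (Fin n × Fin N)) : (total (0 : Matrix (Fin r₀) (Fin r₀) ℂ) (Pi.single j H) * M) i o = 0 := by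
  rw [Matrix.mul_apply]
  exact Finset.sum_eq_zero fun k _ => by rw [single_out_left hi, zero_mul]

theorem mul_right_out {j : Fin N} (H : Matrix (Fin n) (Fin n) ℂ)
    (M : Matrix (Fin r₀ ⊕ (Fin n × Fin N)) (Fin r₀ ⊕ (Fin n × Fin N)) ℂ) {i : Fin r₀ ⊕ (Fin n × Fin N)} (hi : Out j i)
    (o : Fin r₀ ⊕ (Fin n × Fin N)) : (M * total (0 : Matrix (Fin r₀) (Fin r₀) ℂ) (Pi.single j H)) o i = 0 := by
  rw [Matrix.mul_apply]
  exact Finset.sum_eq_zero fun k _ => by rw [single_out_right hi, mul_zero]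

/-- matrices which commute with the symplectic Lie algebras in all components -/
theorem scalars {B : Fin N → Matrix (Fin n) (Fin n) ℂ} (hB : ∀ j, IsUnit (B j).det) (hBt : ∀ j, (B j)ᵀ = -B j)
    {X : Matrix (Fin r₀ ⊕ (Fin n × Fin N)) (Fin r₀ ⊕ (Fin n × Fin N)) ℂ}
    (h : ∀ j, ∀ H ∈ Pool.Agent.Helper880_R3.lieB (B j), total (0 : Matrix (Fin r₀) (Fin r₀) ℂ) (Pi.single j H) * X =
      X * total 0 (Pi.single j H)) :
    ∃ (X₀ : Matrix (Fin r₀) (Fin r₀) ℂ) (c : Fin N → ℂ), X = total X₀ fun j => c j • 1 := by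
  have ha : ∀ (j : Fin N) (k : Fin n) (o : Fin r₀ ⊕ (Fin n × Fin N)), Out j o → X (Sum.inr (k, j)) o = 0 := by
    intro j k o ho
    have h1 : (fun k => X (Sum.inr (k, j)) o) = 0 := Pool.Agent.H885.ENR.kill_right (hB j) (hBt j) fun H hH => by
      funext u
      have h2 := congrFun (congrFun (h j H hH) (Sum.inr (u, j))) o
      rw [mul_left_entry, mul_right_out _ _ ho] at h2
      exact h2
    exact congrFun h1 k
  have hb : ∀ (j : Fin N) (k : Fin n) (o : Fin r₀ ⊕ (Fin n × Fin N)), Out j o → X o (Sum.inr (k, j)) = 0 := by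
    intro j k o ho
    have h1 : (fun k => X o (Sum.inr (k, j))) = 0 := Pool.Agent.H885.ENR.kill_left (hB j) (hBt j) fun H hH => by
      funext u
      have h2 := congrFun (congrFun (h j H hH) o) (Sum.inr (u, j))
      rw [mul_right_entry, mul_left_out _ _ ho] at h2
      exact h2.symm
    exact congrFun h1 k
  have hc : ∀ j : Fin N, ∃ c : ℂ, (Matrix.of fun u v : Fin n => X (Sum.inr (u, j)) (Sum.inr (v, j))) = c • 1 := by
    intro j
    refine Pool.Agent.H885.ENR.scalar_of (hB j) (hBt j) fun H hH => ?_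
    ext u v
    have h2 := congrFun (congrFun (h j H hH) (Sum.inr (u, j))) (Sum.inr (v, j))
    rw [mul_left_entry, mul_right_entry] at h2
    rw [Matrix.mul_apply, Matrix.mul_apply]
    exact h2
  choose c hc using hc
  refine ⟨Matrix.of fun i k => X (Sum.inl i) (Sum.inl k), c, ?_⟩
  ext i k
  rcases i with i | ⟨i, a⟩ <;> rcases k with k | ⟨k, b⟩
  · rfl
  · exact hb b k _ trivial
  · exact ha a i _ trivial
  · unfold total
    rw [Matrix.fromBlocks_apply₂₂, Matrix.blockDiagonal_apply]
    by_cases hab : a = b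
    · subst hab
      rw [if_pos rfl, ← hc a]
      rfl
    · rw [if_neg hab]
      exact ha a i _ (Ne.symm hab)

end entries

/-- from the bound for block matrices to the two conclusions -/
theorem concl {m n N r₀ ℓ e r : ℕ} {x : Fibres m n N r₀ ℓ} (hu : IsUnit (total x.C₀ x.periods))
    (h : Module.finrank ℂ (Pool.Agent.H885.blT r₀ (Pool.Agent.H885.conjT x.C x.𝔤)) ≤
        Module.finrank ℂ (Pool.Agent.H885.blT r₀ (Pool.Agent.H885.conjT x.C x.𝔤) ⊓
          Pool.Agent.H885.ENR.cen e (total x.C₀ x.periods) : Submodule ℂ _) + r) :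
    x.EndomorphismsUpTo e r ∧ x.OnlyScalars e r := by
  classical
  have hinj : Function.Injective (Pool.Agent.Helper880_MX.TotL r₀ n N) := by
    intro X Y hXY
    funext j
    ext i k
    have h1 : total (0 : Matrix (Fin r₀) (Fin r₀) ℂ) X = total 0 Y := hXY
    have h2 := congrFun (congrFun h1 (Sum.inr (i, j))) (Sum.inr (k, j))
    unfold total at h2
    simp only [Matrix.fromBlocks_apply₂₂, Matrix.blockDiagonal_apply, if_true] at h2
    exact h2
  have hfr : ∀ p : Submodule ℂ (Fin N → Matrix (Fin n) (Fin n) ℂ),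
      Module.finrank ℂ (Pool.Agent.H885.blT r₀ p) = Module.finrank ℂ p := fun p =>
    ((Submodule.equivMapOfInjective _ hinj p).finrank_eq).symm
  have hconj : Pool.Agent.H885.conjT x.C x.𝔤 = conjugate x.C x.𝔤 := rfl
  have hinf : (Pool.Agent.H885.blT r₀ (conjugate x.C x.𝔤) ⊓ Pool.Agent.H885.ENR.cen e (total x.C₀ x.periods) :
      Submodule ℂ _) = Pool.Agent.H885.blT r₀ (conjugate x.C x.𝔤 ⊓ inBlocks (commutant e (total x.C₀ x.periods))) := by
    rw [commutant_eq]
    ext Y
    constructor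
    · rintro ⟨⟨X, hX, rfl⟩, hY⟩
      exact ⟨X, ⟨hX, hY⟩, rfl⟩
    · rintro ⟨X, ⟨hX, hY⟩, rfl⟩
      exact ⟨⟨X, hX, rfl⟩, hY⟩
  rw [hconj, hinf, hfr, hfr] at h
  refine ⟨h, fun hr hbig X Y hXY => ?_⟩
  choose B hB hBt hg using hbig
  have hCj : ∀ j, IsUnit (x.C j).det := fun j => by
    have hud := (Pool.Agent.Helper880_R3.Tot_unit hu).2 j
    have hPj : IsUnit (x.periods j).det := (Matrix.isUnit_iff_isUnit_det _).1 hud
    have h1 : x.periods j = x.C j * solution (x.R j) (x.Z j) (x.a j) (x.b j) := rfl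
    rw [h1, Matrix.det_mul] at hPj
    exact isUnit_of_mul_isUnit_left hPj
  set B' : Fin N → Matrix (Fin n) (Fin n) ℂ := fun j => x.C j * B j * (x.C j)ᵀ with hB'
  have hB'd : ∀ j, IsUnit (B' j).det := fun j => by
    rw [hB']
    simp only [Matrix.det_mul, Matrix.det_transpose]
    exact ((hCj j).mul ((Matrix.isUnit_iff_isUnit_det _).1 (hB j))).mul (hCj j)
  have hB't : ∀ j, (B' j)ᵀ = -B' j := fun j => by
    rw [hB']
    simp only [Matrix.transpose_mul, Matrix.transpose_transpose, hBt, Matrix.neg_mul, Matrix.mul_neg, Matrix.mul_assoc]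
  refine scalars hB'd hB't fun j H hH => ?_
  -- the component `j`
  have hle : (Pool.Agent.Helper880_R3.lieB (B' j)).map
      (LinearMap.single ℂ (fun _ : Fin N => Matrix (Fin n) (Fin n) ℂ) j) ≤ conjugate x.C x.𝔤 := by
    rintro _ ⟨H, hH, rfl⟩
    have h1 : (x.C j)⁻¹ * H * x.C j * B j + B j * ((x.C j)⁻¹ * H * x.C j)ᵀ = 0 := by
      have h2 : (x.C j)⁻¹ * (H * B' j + B' j * Hᵀ) * ((x.C j)ᵀ)⁻¹ = 0 := by rw [hH.2, Matrix.mul_zero, Matrix.zero_mul]
      have h3 : IsUnit ((x.C j)ᵀ).det := by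
        rw [Matrix.det_transpose]
        exact hCj j
      rw [← h2, hB']
      simp only [Matrix.transpose_mul, Matrix.transpose_nonsing_inv, Matrix.mul_add, Matrix.add_mul]
      congr 1
      · calc (x.C j)⁻¹ * H * x.C j * B j = (x.C j)⁻¹ * H * x.C j * B j * ((x.C j)ᵀ * ((x.C j)ᵀ)⁻¹) := by
              rw [Matrix.mul_nonsing_inv _ h3, Matrix.mul_one]
          _ = _ := by simp only [Matrix.mul_assoc]
      · calc B j * ((x.C j)ᵀ * (Hᵀ * ((x.C j)ᵀ)⁻¹)) =
            ((x.C j)⁻¹ * x.C j) * (B j * ((x.C j)ᵀ * (Hᵀ * ((x.C j)ᵀ)⁻¹))) := by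
              rw [Matrix.nonsing_inv_mul _ (hCj j), Matrix.one_mul]
          _ = _ := by simp only [Matrix.mul_assoc]
    refine ⟨_, hg j _ h1, fun i => ?_⟩
    show (Pi.single j H : Fin N → Matrix (Fin n) (Fin n) ℂ) i = _
    by_cases hi : i = j
    · subst hi
      rw [Pi.single_eq_same, Pi.single_eq_same]
      calc H = (x.C i * (x.C i)⁻¹) * H * (x.C i * (x.C i)⁻¹) := by
            rw [Matrix.mul_nonsing_inv _ (hCj i), Matrix.one_mul, Matrix.mul_one]
        _ = _ := by simp only [Matrix.mul_assoc]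
    · rw [Pi.single_eq_of_ne hi, Pi.single_eq_of_ne hi, Matrix.mul_zero, Matrix.zero_mul]
  have hcod := Pool.Agent.H885.ENR.cod_inter
    (LinearMap.single ℂ (fun _ : Fin N => Matrix (Fin n) (Fin n) ℂ) j) (fun H H' hh => by
      have h1 : (Pi.single j H : Fin N → Matrix (Fin n) (Fin n) ℂ) = Pi.single j H' := hh
      have h2 := congrFun h1 j
      rw [Pi.single_eq_same, Pi.single_eq_same] at h2
      exact h2) hle
    (K := conjugate x.C x.𝔤 ⊓ inBlocks (commutant e (total x.C₀ x.periods))) inf_le_left h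
  have hbr : ∀ H H' : Matrix (Fin n) (Fin n) ℂ, total (0 : Matrix (Fin r₀) (Fin r₀) ℂ) (Pi.single j (H * H' - H' * H)) =
      total 0 (Pi.single j H) * total 0 (Pi.single j H') - total 0 (Pi.single j H') * total 0 (Pi.single j H) := by
    intro H H'
    have h1 : ∀ H H' : Matrix (Fin n) (Fin n) ℂ, total (0 : Matrix (Fin r₀) (Fin r₀) ℂ) (Pi.single j H) *
        total 0 (Pi.single j H') = total 0 (Pi.single j (H * H')) := by
      intro H H'
      ext i k
      by_cases hi : Out j i
      · rw [mul_left_out _ _ hi, single_out_left hi]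
      · rcases i with i | ⟨i, a⟩
        · exact absurd trivial hi
        · have ha : a = j := by
            by_contra hne
            exact hi hne
          subst ha
          rw [mul_left_entry]
          by_cases hk : Out a k
          · rw [single_out_right hk]
            exact Finset.sum_eq_zero fun _ _ => by rw [single_out_right hk, mul_zero]
          · rcases k with k | ⟨k, b⟩
            · exact absurd trivial hk
            · have hb : b = a := by
                by_contra hne
                exact hk hne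
              subst hb
              rw [single_inr, if_pos ⟨rfl, rfl⟩, Matrix.mul_apply]
              exact Finset.sum_congr rfl fun _ _ => by rw [single_inr, if_pos ⟨rfl, rfl⟩]
    rw [h1, h1]
    ext i k
    rw [Matrix.sub_apply]
    rcases i with i | ⟨i, a⟩ <;> rcases k with k | ⟨k, b⟩
    · exact (sub_zero (0 : ℂ)).symm
    · exact (sub_zero (0 : ℂ)).symm
    · exact (sub_zero (0 : ℂ)).symm
    · rw [single_inr, single_inr, single_inr]
      split_ifs
      · rfl
      · exact (sub_zero (0 : ℂ)).symm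
  have hall := Pool.Agent.Helper880_R3.cod_sp (hB'd j) (hB't j) (by omega : 2 ≤ n) (by omega : r ≤ n - 2) _ inf_le_left
    (fun H hH H' hH' => by
      have hL := Pool.Agent.Helper880_R3.lieB_lie (B' j) H hH.1 H' hH'.1
      refine ⟨hL, hle ⟨_, hL, rfl⟩, ?_⟩
      show total 0 (Pi.single j (H * H' - H' * H)) ∈ commutant e (total x.C₀ x.periods)
      rw [hbr, commutant_eq]
      have h1 : total 0 (Pi.single j H) ∈ commutant e (total x.C₀ x.periods) := hH.2.2
      have h2 : total 0 (Pi.single j H') ∈ commutant e (total x.C₀ x.periods) := hH'.2.2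
      rw [commutant_eq] at h1 h2
      exact Pool.Agent.H885.ENR.lie_mem h1 h2) hcod
  have h1 : total 0 (Pi.single j H) ∈ commutant e (total x.C₀ x.periods) := (hall hH).2.2
  exact h1 X Y hXY

/-- the two conclusions are monotone in `r` -/
theorem mono {m n N r₀ ℓ e r r' : ℕ} {x : Fibres m n N r₀ ℓ} (hr : r ≤ r')
    (h : x.EndomorphismsUpTo e r ∧ x.OnlyScalars e r) : x.EndomorphismsUpTo e r' ∧ x.OnlyScalars e r' :=
  ⟨h.1.trans (Nat.add_le_add_left hr _), fun hr' hbig X Y hXY => h.2 (by omega) hbig X Y hXY⟩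

/-- a bounded number of separated tuples -/
theorem core (m n N r₀ q s ℓ e L : ℕ) : ∃ E : ℕ, ∀ (M : ℕ) (β : Fin s → ℂ) (H : ℝ)
    (h w b₀ : ℕ), 1 ≤ H → (2 * H * ((h : ℝ) + w + 2)) ^ E ≤ (b₀ : ℝ) → ∀ x : Fin L → Fibres m n N r₀ ℓ,
    (∀ l, (x l).Valid q M e β H h w b₀) → (∀ l l', l ≠ l' → Separated H h (x l) (x l')) →
    ∃ ρ : Fin L → ℕ, ∑ l, ρ l ≤ s + 1 ∧ ∀ l, (x l).EndomorphismsUpTo e (ρ l + ℓ) ∧ (x l).OnlyScalars e (ρ l + ℓ) := by
  classical
  set e' : ℕ := max e (max 1 n) with he'
  obtain ⟨E₀, hbase⟩ := Pool.Agent.H885.base_sysN m n q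
  obtain ⟨E, hE⟩ := Pool.Agent.H885.ZW.uniformZW n N q r₀ (s + 1) ℓ e' L
    (Pool.Agent.H885.ENR.compat_cen r₀ n N e)
  obtain ⟨e₁, he₁⟩ := Pool.Agent.H885.pow_absorb (c := (2 : ℝ) * (1 + 2 ^ m)) (by
    have : (1 : ℝ) ≤ 2 ^ m := one_le_pow₀ (by norm_num)
    linarith)
  refine ⟨(e₁ + E₀ + 1) * E + 1, fun M β H h w b₀ hH hbig₀ xs hxs hsep => ?_⟩
  set x : ℝ := 2 * H * ((h : ℝ) + w + 2) with hx
  have hh0 : (0 : ℝ) ≤ h := by positivity
  have hw0 : (0 : ℝ) ≤ w := by positivity
  have hx1 : (h : ℝ) + w + 2 ≤ x := by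
    rw [hx]
    nlinarith
  have hx2 : 2 ≤ x := by linarith
  have hx3 : H * ((h : ℝ) + 2) ≤ x := by
    rw [hx]
    nlinarith
  have hx4 : 2 * H * ((h : ℝ) + 2) ≤ x := by
    rw [hx]
    nlinarith
  have hb₀ : 0 < b₀ := by
    have h1 : (1 : ℝ) ≤ x ^ ((e₁ + E₀ + 1) * E + 1) := one_le_pow₀ (by linarith)
    have h2 : (1 : ℝ) ≤ b₀ := h1.trans hbig₀
    exact_mod_cast h2
  have hbig : x ^ ((e₁ + E₀ + 1) * E) ≤ (b₀ : ℝ) := (pow_le_pow_right₀ (by linarith) (Nat.le_succ _)).trans hbig₀
  have hbig' : (2 * (2 * H * ((h : ℝ) + 2)) ^ E₀ * ((w : ℝ) + 2 ^ m * (H * ((h : ℝ) + 2)) + 2)) ^ E ≤ (b₀ : ℝ) := by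
    refine le_trans ?_ hbig
    rw [pow_mul]
    refine pow_le_pow_left₀ (by positivity) ?_ E
    have h1 : (2 * H * ((h : ℝ) + 2)) ^ E₀ ≤ x ^ E₀ := pow_le_pow_left₀ (by positivity) hx4 _
    have h2 : (w : ℝ) + 2 ^ m * (H * ((h : ℝ) + 2)) + 2 ≤ (1 + 2 ^ m) * x := by
      have h3 : (2 : ℝ) ^ m * (H * ((h : ℝ) + 2)) ≤ 2 ^ m * x := mul_le_mul_of_nonneg_left hx3 (by positivity)
      linarith
    calc 2 * (2 * H * ((h : ℝ) + 2)) ^ E₀ * ((w : ℝ) + 2 ^ m * (H * ((h : ℝ) + 2)) + 2) ≤
        2 * x ^ E₀ * ((1 + 2 ^ m) * x) := by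
          refine mul_le_mul (by linarith) h2 (by positivity) (by positivity)
      _ = (2 * (1 + 2 ^ m)) * (x ^ E₀ * x) := by ring
      _ ≤ x ^ e₁ * (x ^ E₀ * x) := mul_le_mul_of_nonneg_right (he₁ x hx2) (by positivity)
      _ = x ^ (e₁ + E₀ + 1) := by ring
  have hFar : ∀ b c : ℕ, Far m H h b c → 2 * (2 ^ m * (H * ((h : ℝ) + 2))) < |(b : ℝ) - c| := by
    intro b c hbc
    refine lt_of_eq_of_lt ?_ hbc
    ring
  have hH1 : (1 : ℝ) ≤ (2 * H * ((h : ℝ) + 2)) ^ E₀ := one_le_pow₀ (by nlinarith)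
  have hfam := fun l j => hbase H _ _ _ _ _ (base_of hH ((hxs l).family j)) h _ ((hxs l).numerators j) ((hxs l).pole j)
  choose T' B' hT' hS' using hfam
  have hR : ∀ l j, (∑ i, (xs l).R j i) ^ n = 0 := fun l j =>
    Pool.Agent.H885.sumR_nil ((hxs l).family j).comm ((hxs l).family j).nil
  set X : Pool.Agent.H885.DatX L n N := ⟨fun l j => ∑ i, (xs l).R j i, (2 * H * ((h : ℝ) + 2)) ^ E₀, T', B',
    fun l j => Pool.Agent.H885.lineM ((xs l).a j) ((xs l).Z j), fun l j => Pool.Agent.H885.lineM ((xs l).a j) ((xs l).W j),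
    2 ^ m * (H * ((h : ℝ) + 2)), w, b₀, fun l => (xs l).b, fun l => (xs l).𝔤⟩ with hX
  have ht0 : 0 < X.t := by
    unfold Pool.Agent.H885.DatX.t
    omega
  set lt : ℂ := Complex.log ((X.t : ℝ) : ℂ) with hlt
  set Y : Pool.Agent.H885.ZW.DatZ L n N r₀ (s + 1) ℓ := ⟨Fin.cons lt β, fun l => (xs l).γ, fun l => (xs l).κ,
    fun l => (xs l).C₀, fun l => (xs l).C, fun l j => Pool.Agent.H885.eP (∑ i, (xs l).R j i) lt, fun l j => X.z l j,
    fun l => (xs l).𝔤⟩ with hY
  have hsol : ∀ l j, solution ((xs l).R j) ((xs l).Z j) ((xs l).a j) ((xs l).b j) =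
      Pool.Agent.H885.eP (∑ i, (xs l).R j i) lt * X.z l j := fun l j =>
    periods_eq (hxs l).family ht0 (fun j => lt_of_lt_of_le hb₀ ((hxs l).window j).1) j
  have hP : ∀ l, Y.P l = total (xs l).C₀ (xs l).periods := by
    intro l
    have h1 : (fun j => Y.C l j * Y.z l j) = (xs l).periods := by
      funext j
      show (xs l).C j * Pool.Agent.H885.eP (∑ i, (xs l).R j i) lt * X.z l j = (xs l).C j * solution _ _ _ _
      rw [hsol, Matrix.mul_assoc]
    show Pool.Agent.Helper880_R3.Tot (xs l).C₀ (fun j => Y.C l j * Y.z l j) = _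
    rw [h1]
    rfl
  have hren : ∀ (l : Fin L) (y : ℂ), AlgebraicOver e (Fin.append β (xs l).γ) y →
      Pool.Agent.H885.AlgD e' (Fin.append (Fin.cons lt β : Fin (s + 1) → ℂ) (xs l).γ) y := by
    intro l y hy
    refine Pool.Agent.H885.AlgD.mono (le_max_left _ _) (Pool.Agent.H885.MW.algD_map (ξ := Fin.append β (xs l).γ)
      (Fin.addCases (fun i => Fin.castAdd ℓ i.succ) (fun i => Fin.natAdd (s + 1) i)) (fun i => ?_) hy)
    refine Fin.addCases (fun i => ?_) (fun i => ?_) i
    · rw [Fin.addCases_left, Fin.append_left, Fin.append_left, Fin.cons_succ]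
    · rw [Fin.addCases_right, Fin.append_right, Fin.append_right]
  have hXOK : X.OK q E := ⟨hH1, hS', hT', by positivity, fun l j a' b' =>
      Pool.Agent.Y120.GH.cx_mem (by positivity) (Pool.Agent.H885.line_size hH (((hxs l).family j).size a' b')
        ((hxs l).numerators j)),
      fun l j => (hxs l).window j, fun l j l' j' hne => by
        by_cases hll : l = l'
        · subst hll
          rcases (hxs l).far j j' with h2 | h2
          · exact absurd ⟨rfl, h2⟩ hne
          · exact hFar _ _ h2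
        · exact hFar _ _ (hsep l l' hll j j'), hbig', fun l Z hZ c lam => by
          have h1 := sym_inf.1 ((hxs l).symmetries _ ((hxs l).stable Z hZ lam) c)
          have h2 : (fun j => if (xs l).b j = c then (xs l).twist lam Z j else 0) =
              fun j => if (xs l).b j = c then Pool.Agent.H885.eP (∑ i, (xs l).R j i) (-lam) * Z j *
                Pool.Agent.H885.eP (∑ i, (xs l).R j i) lam else 0 := by
            funext j
            rw [twist_eq (hR l)]
          rw [h2] at h1
          exact h1⟩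
  have hYOK : Y.OK e' := by
    refine ⟨fun l => (hxs l).factor, fun l i j => hren l _ ((hxs l).central₀ i j), fun l a i j => hren l _ ((hxs l).central a i j),
      fun l a i j => ?_, fun l => ?_⟩
    · have h1 := Pool.Agent.H885.algD_eP ((le_max_left _ _).trans (le_max_right _ _)) ((le_max_right _ _).trans (le_max_right _ _))
        (∑ i, (xs l).R a i) (Fin.append (Fin.cons lt β : Fin (s + 1) → ℂ) (xs l).γ) (Fin.castAdd ℓ 0) i j (e := e')
      rw [Fin.append_left, Fin.cons_zero] at h1
      exact h1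
    · rw [hP]
      exact (hxs l).invertible
  obtain ⟨ρ, hρ, hρ'⟩ := hE X Y hXOK hYOK (fun l j => rfl) (fun l => rfl)
  refine ⟨ρ, hρ, fun l => concl (hxs l).invertible ?_⟩
  have h1 := hρ' l _ rfl
  rw [hP] at h1
  have h2 : Pool.Agent.H885.conjT (Y.C l) (Y.𝔤 l) = Pool.Agent.H885.conjT (xs l).C (xs l).𝔤 :=
    conj_twist (hR l) (hxs l).stable lt
  rw [h2] at h1
  exact h1

/-- parts 1 and 2 -/
theorem parts (m n N r₀ M q s ℓ e : ℕ) :
    ∃ E : ℕ, ∀ (β : Fin s → ℂ) (H : ℝ) (h w b₀ : ℕ), 1 ≤ H → (2 * H * ((h : ℝ) + w + 2)) ^ E ≤ (b₀ : ℝ) →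
    (∀ (L : ℕ) (x : Fin L → Fibres m n N r₀ ℓ), (∀ l, (x l).Valid q M e β H h w b₀) →
      (∀ l l', l ≠ l' → Separated H h (x l) (x l')) →
      ∃ ρ : Fin L → ℕ, ∑ l, ρ l ≤ s + 1 ∧ ∀ l, (x l).EndomorphismsUpTo e (ρ l + ℓ) ∧ (x l).OnlyScalars e (ρ l + ℓ)) ∧
    ∀ r : ℕ, ℓ ≤ r → ∃ F : Finset ℕ, F.card ≤ M * ((s + 1) / (r + 1 - ℓ)) ∧
      ∀ x : Fibres m n N r₀ ℓ, x.Valid q M e β H h w b₀ → (∀ j, ∀ c ∈ F, Far m H h (x.b j) c) →
      x.EndomorphismsUpTo e r ∧ x.OnlyScalars e r := by
  classical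
  choose E hE using fun L => core m n N r₀ q s ℓ e L
  set E' : ℕ := ∑ L ∈ Finset.range (s + 3), E L with hE'
  have hle : ∀ L, L ≤ s + 2 → E L ≤ E' := fun L hL =>
    Finset.single_le_sum (f := fun L => E L) (fun _ _ => Nat.zero_le _) (Finset.mem_range.2 (by omega : L < s + 3))
  refine ⟨E', fun β H h w b₀ hH hbig => ?_⟩
  have hx1 : (1 : ℝ) ≤ 2 * H * ((h : ℝ) + w + 2) := by
    have h1 : (0 : ℝ) ≤ h := by positivity
    have h2 : (0 : ℝ) ≤ w := by positivity
    nlinarith
  set Gd : Fibres m n N r₀ ℓ → ℕ → Prop := fun x r => x.EndomorphismsUpTo e r ∧ x.OnlyScalars e r with hGd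
  have hGm : ∀ x r r', r ≤ r' → Gd x r → Gd x r' := fun x r r' hr h1 => mono hr h1
  -- at most `s + 2` tuples
  have hcore : ∀ (L : ℕ) (x : Fin L → Fibres m n N r₀ ℓ), L ≤ s + 2 → (∀ l, (x l).Valid q M e β H h w b₀) →
      (∀ l l', l ≠ l' → Separated H h (x l) (x l')) →
      ∃ ρ : Fin L → ℕ, ∑ l, ρ l ≤ s + 1 ∧ ∀ l, Gd (x l) (ρ l + ℓ) := by
    intro L x hL hx hsep
    refine hE L M β H h w b₀ hH ?_ x hx hsep
    exact (pow_le_pow_right₀ hx1 (hle L hL)).trans hbig
  -- the defect
  have hex : ∀ x : Fibres m n N r₀ ℓ, x.Valid q M e β H h w b₀ → ∃ ρ, Gd x (ρ + ℓ) := by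
    intro x hx
    obtain ⟨ρ, -, hρ⟩ := hcore 1 (fun _ => x) (by omega) (fun _ => hx) fun l l' hll => absurd (Subsingleton.elim l l') hll
    exact ⟨ρ 0, hρ 0⟩
  set df : Fibres m n N r₀ ℓ → ℕ := fun x => if hx : x.Valid q M e β H h w b₀ then Nat.find (hex x hx) else 0 with hdf
  have hdf1 : ∀ x : Fibres m n N r₀ ℓ, x.Valid q M e β H h w b₀ → Gd x (df x + ℓ) := by
    intro x hx
    rw [hdf]
    simp only [dif_pos hx]
    exact Nat.find_spec (hex x hx)
  have hdf2 : ∀ (x : Fibres m n N r₀ ℓ) (ρ : ℕ), x.Valid q M e β H h w b₀ → Gd x (ρ + ℓ) → df x ≤ ρ := by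
    intro x ρ hx hρ
    rw [hdf]
    simp only [dif_pos hx]
    exact Nat.find_min' (hex x hx) hρ
  have hmain : ∀ (L : ℕ) (x : Fin L → Fibres m n N r₀ ℓ), (∀ l, (x l).Valid q M e β H h w b₀) →
      (∀ l l', l ≠ l' → Separated H h (x l) (x l')) → ∑ l, df (x l) ≤ s + 1 := by
    intro L x hx hsep
    -- subsets
    have hsub : ∀ Λ : Finset (Fin L), Λ.card ≤ s + 2 → ∑ l ∈ Λ, df (x l) ≤ s + 1 := by
      intro Λ hΛ
      set f := Λ.orderEmbOfFin rfl with hf
      obtain ⟨ρ, hρ, hρ'⟩ := hcore Λ.card (fun i => x (f i)) hΛ (fun i => hx _) fun i i' hii =>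
        hsep _ _ fun h1 => hii (f.injective h1)
      have h1 : ∑ i : Fin Λ.card, df (x (f i)) = ∑ l ∈ Λ, df (x l) := by
        have h2 : Λ = Finset.univ.map f.toEmbedding := by
          rw [hf, ← Finset.coe_inj]
          simp
        conv_rhs => rw [h2, Finset.sum_map]
        rfl
      rw [← h1]
      exact (Finset.sum_le_sum fun i _ => hdf2 _ _ (hx _) (hρ' i)).trans hρ
    set Λ := Finset.univ.filter fun l => df (x l) ≠ 0 with hΛ
    have h1 : ∑ l, df (x l) = ∑ l ∈ Λ, df (x l) := by
      rw [hΛ, Finset.sum_filter_ne_zero]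
    rcases le_or_gt Λ.card (s + 2) with h2 | h2
    · rw [h1]
      exact hsub Λ h2
    · obtain ⟨Λ', hΛ', hcard⟩ := Finset.exists_subset_card_eq (s := Λ) h2.le
      have h3 := hsub Λ' hcard.le
      have h4 : Λ'.card ≤ ∑ l ∈ Λ', df (x l) := by
        rw [Finset.card_eq_sum_ones]
        refine Finset.sum_le_sum fun l hl => ?_
        have := (Finset.mem_filter.1 (hΛ' hl)).2
        omega
      omega
  refine ⟨fun L x hx hsep => ⟨fun l => df (x l), hmain L x hx hsep, fun l => hdf1 _ (hx l)⟩, fun r hr => ?_⟩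
  -- the exceptional denominators
  set P : ℕ → Prop := fun p => ∃ x : Fin p → Fibres m n N r₀ ℓ, (∀ l, (x l).Valid q M e β H h w b₀) ∧
    (∀ l l', l ≠ l' → Separated H h (x l) (x l')) ∧ ∀ l, ¬ Gd (x l) r with hP
  have hPle : ∀ p, P p → p ≤ (s + 1) / (r + 1 - ℓ) := by
    rintro p ⟨x, hx, hsep, hbad⟩
    rw [Nat.le_div_iff_mul_le (by omega)]
    have h1 := hmain p x hx hsep
    have h2 : ∀ l, r + 1 - ℓ ≤ df (x l) := by
      intro l
      by_contra hcon
      apply hbad l
      exact hGm (x l) (df (x l) + ℓ) r (by omega) (hdf1 (x l) (hx l))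
    have h3 : ∑ _l : Fin p, (r + 1 - ℓ) ≤ ∑ l, df (x l) := Finset.sum_le_sum fun l _ => h2 l
    rw [Finset.sum_const, Finset.card_univ, Fintype.card_fin, smul_eq_mul] at h3
    exact h3.trans h1
  have hP0 : P 0 := ⟨fun l => l.elim0, fun l => l.elim0, fun l => l.elim0, fun l => l.elim0⟩
  obtain ⟨p, hPp, hPp1⟩ : ∃ p, P p ∧ ¬ P (p + 1) := by
    by_contra hcon
    push Not at hcon
    have h1 : ∀ p, P p := by
      intro p
      induction p with
      | zero => exact hP0
      | succ p ih => exact hcon p ih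
    have := hPle _ (h1 ((s + 1) / (r + 1 - ℓ) + 1))
    omega
  have hple := hPle p hPp
  obtain ⟨x, hx, hsep, hbad⟩ := hPp
  refine ⟨Finset.univ.biUnion fun l => Finset.univ.image (x l).b, ?_, fun y hy hyF => ?_⟩
  · refine Finset.card_biUnion_le.trans ?_
    refine (Finset.sum_le_card_nsmul _ _ M fun l _ => (hx l).different).trans ?_
    rw [Finset.card_univ, Fintype.card_fin, smul_eq_mul, mul_comm]
    exact Nat.mul_le_mul_left _ hple
  · by_contra hybad
    apply hPp1
    refine ⟨Fin.cons y x, fun l => ?_, fun l l' hll i j => ?_, fun l => ?_⟩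
    · refine Fin.cases ?_ (fun l => ?_) l
      · exact hy
      · exact hx l
    · have hin : ∀ l j, (x l).b j ∈ Finset.univ.biUnion fun l => Finset.univ.image (x l).b := fun l j =>
        Finset.mem_biUnion.2 ⟨l, Finset.mem_univ _, Finset.mem_image_of_mem _ (Finset.mem_univ _)⟩
      rcases Fin.eq_zero_or_eq_succ l with rfl | ⟨l, rfl⟩ <;> rcases Fin.eq_zero_or_eq_succ l' with rfl | ⟨l', rfl⟩
      · exact absurd rfl hll
      · rw [Fin.cons_zero, Fin.cons_succ]
        exact hyF i _ (hin l' j)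
      · rw [Fin.cons_zero, Fin.cons_succ]
        exact far_symm (hyF j _ (hin l i))
      · rw [Fin.cons_succ, Fin.cons_succ]
        exact hsep l l' (fun h1 => hll (by rw [h1])) i j
    · refine Fin.cases ?_ (fun l => ?_) l
      · exact hybad
      · exact hbad l

/-- **The theorem.** Part 1: for separated tuples of fibres the sum of the codimensions of the part of the monodromy which
commutes with all endomorphisms of bounded degree is at most `s + 1` (up to `ℓ` for each tuple). Part 2: the number of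
exceptional denominators in short windows. Part 3: the number of all exceptional denominators. -/
theorem result (m n N r₀ M q s ℓ e : ℕ) :
    (∃ E : ℕ, ∀ (β : Fin s → ℂ) (H : ℝ) (h w b₀ : ℕ), 1 ≤ H → (2 * H * ((h : ℝ) + w + 2)) ^ E ≤ (b₀ : ℝ) →
    (∀ (L : ℕ) (x : Fin L → Fibres m n N r₀ ℓ), (∀ l, (x l).Valid q M e β H h w b₀) →
      (∀ l l', l ≠ l' → Separated H h (x l) (x l')) →
      ∃ ρ : Fin L → ℕ, ∑ l, ρ l ≤ s + 1 ∧ ∀ l, (x l).EndomorphismsUpTo e (ρ l + ℓ) ∧ (x l).OnlyScalars e (ρ l + ℓ)) ∧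
    ∀ r : ℕ, ℓ ≤ r → ∃ F : Finset ℕ, F.card ≤ M * ((s + 1) / (r + 1 - ℓ)) ∧
      ∀ x : Fibres m n N r₀ ℓ, x.Valid q M e β H h w b₀ → (∀ j, ∀ c ∈ F, Far m H h (x.b j) c) →
      x.EndomorphismsUpTo e r ∧ x.OnlyScalars e r) ∧
    ∃ k : ℕ, 0 < k ∧ ∀ (β : Fin s → ℂ) (H : ℝ) (h : ℕ), 1 ≤ H → ∃ C : ℝ, ∀ B : ℕ, 0 < B →
      ((exceptional m n N r₀ ℓ q e β H h B).ncard : ℝ) ^ k ≤ C * (B : ℝ) ^ (k - 1) := by
  classical
  obtain ⟨E, hE⟩ := parts m n N r₀ 1 q s ℓ e
  refine ⟨parts m n N r₀ M q s ℓ e, 2 * (E + 1), by omega, fun β H h hH => ?_⟩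
  exact Pool.Agent.H885.count_windows (fun B => exceptional m n N r₀ ℓ q e β H h B) hH h m (s + 1) E
    (fun B b hb => hb.1) fun w b₀ hbig => by
      obtain ⟨-, h0⟩ := hE β H h w b₀ hH hbig
      obtain ⟨F, h1, h2⟩ := h0 ℓ le_rfl
      have h3 : ℓ + 1 - ℓ = 1 := by omega
      rw [h3, Nat.div_one, one_mul] at h1
      refine ⟨F, h1, fun B b hb hb1 hb2 => ?_⟩
      obtain ⟨x, hx1, hx2, hx3⟩ := hb.2
      by_contra hcon
      push Not at hcon
      refine hx3 (h2 x ⟨fun j => ?_, hx1.far, hx1.different, hx1.numerators, hx1.family, hx1.pole, hx1.factor, hx1.central₀,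
        hx1.central, hx1.invertible, hx1.symmetries, hx1.stable⟩ fun j c hc => ?_)
      · rw [hx2 j]
        exact ⟨hb1, hb2⟩
      · rw [hx2 j]
        exact hcon c hc

end Pool.Agent.Results.MP_bb3355_nt.EndomorphismsNearDegenerate
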